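import Mathlib
import Pool.Agent.W610.UpExp
import Pool.Agent.W415.CE.Core

set_option autoImplicit false

/-!
# Vanishing for general monomial collisions: exponentially large multiplicities, every
characteristic

For every algebraically closed field `k` of any characteristic, all `r ≥ 2 ^ 1000` and all `m ≥ 1`,
the subscheme of the plane with ideal
`(y - (a₀ + a₁ x + ... + a_(r-1) x ^ (r-1)), (x - c) ^ r) ^ m` lies, for all `(c, a)` outside a
hypersurface, on no curve of degree `d ≤ (1 - exp (-r ^ (1/10))) m √r`, and if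
`m ≤ exp (r ^ (1/10) / 3)` on no curve of degree `d < m √r`.
-/

namespace Pool.Agent.Results.MP_cea741_ag.CollisionExponential

open Polynomial

universe u

theorem result (k : Type u) [Field k] [IsAlgClosed k] (r : ℕ) (hr : 2 ^ 1000 ≤ r) (m : ℕ)
    (hm : 0 < m) :
    ∃ F : MvPolynomial (Fin (r + 1)) k, F ≠ 0 ∧
      ∀ (c : k) (a : Fin r → k), MvPolynomial.eval (Fin.cons c a : Fin (r + 1) → k) F ≠ 0 →
        ∀ d : ℕ, ((d : ℝ) ≤ (1 - Real.exp (-(r : ℝ) ^ (1 / 10 : ℝ))) * (m * Real.sqrt r) ∨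
            ((m : ℝ) ≤ Real.exp ((r : ℝ) ^ (1 / 10 : ℝ) / 3) ∧ (d : ℝ) < m * Real.sqrt r)) →
          ∀ P : MvPolynomial (Fin 3) k, P.IsHomogeneous d →
            (MvPolynomial.aeval ![C X, X, 1] : MvPolynomial (Fin 3) k →ₐ[k] k[X][X]) P ∈
              (Ideal.span {X - C (∑ j : Fin r, C (a j) * X ^ (j : ℕ)), C ((X - C c) ^ r)} :
                Ideal k[X][X]) ^ m →
            P = 0 := by
  have : Infinite k := IsAlgClosed.instInfinite
  obtain ⟨F, hF, hF'⟩ := Pool.Agent.W415.CE.coll_winE (K := k)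
    (fun _ _ hu hs hsu => Pool.Agent.W610.exists_up_exp hs hu hsu) hr hm
  exact ⟨F, hF, fun c a hc d hd P hP hP' => ((hF' c a hc d).1 hd).1 P hP hP'⟩

end Pool.Agent.Results.MP_cea741_ag.CollisionExponential
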